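import Pool.Agent.Y728.TR.Pair
import Pool.Agent.Y728.MN.Brd
import Pool.Agent.Y246.MN.NW

set_option autoImplicit false

/-!
# The truncated counting function of points of the line in homogeneous coordinates (helper728)
-/

namespace Pool.Agent.Y728.TR

open Finset NumberField IsDedekindDomain Height
open Pool.Agent.H691R3 (fv hr aff)
open Pool.Agent.TH876.KR (form counting localHeight localHeight_nonneg localHeight_pos_iff m2)
open Pool.Agent.Y728.MN (Nr Meet meet_iff)

variable {K : Type} [Field K] [NumberField K] {s : ℕ}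

/-- the coordinates of a point -/
def vc {K : Type} (c : K × K) : Fin 2 → K := ![c.1, c.2]

theorem form_vc (c : K × K) (x : K) : form (vc c) ![x, 1] = c.1 - c.2 * x := by
  show c.1 * 1 - c.2 * x = _
  rw [mul_one]

theorem form_vc_ne {c c' : K × K} (h : c.1 * c'.2 - c.2 * c'.1 ≠ 0) :
    form (vc c) (vc c') ≠ 0 := h

open Classical in
theorem counting_vc (S : Set (HeightOneSpectrum (𝓞 K))) (c : Fin s → K × K) {x : K}
    (hx : ∀ j, (c j).1 - (c j).2 * x ≠ 0) :
    (∑ᶠ v : HeightOneSpectrum (𝓞 K), if v ∉ S ∧ ∃ j, v.valuation K ((c j).1 - (c j).2 * x) <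
        max (v.valuation K (c j).1) (v.valuation K (c j).2) * max (v.valuation K x) 1 then
      Real.log (Ideal.absNorm v.asIdeal) else 0) =
      counting S (fun j => vc (c j)) ![x, 1] := by
  have hf : ∀ j, form (vc (c j)) ![x, 1] ≠ 0 := fun j => by
    rw [form_vc]
    exact hx j
  unfold counting
  refine finsum_congr fun v => ?_
  rw [finsum_eq_if]
  have h1 : ∀ j, 0 < localHeight v (vc (c j)) ![x, 1] ↔ v.valuation K ((c j).1 - (c j).2 * x) <
      max (v.valuation K (c j).1) (v.valuation K (c j).2) * max (v.valuation K x) 1 := by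
    intro j
    rw [localHeight_pos_iff v (hf j)]
    have h2 : Nr v (vc (c j)) ![x, 1] ↔ Meet v (vc (c j)) ![x, 1] := (meet_iff v _ _).symm
    have h3 : Meet v (vc (c j)) ![x, 1] ↔ v.valuation K ((c j).1 - (c j).2 * x) <
        max (v.valuation K (c j).1) (v.valuation K (c j).2) * max (v.valuation K x) 1 := by
      show v.valuation K ((c j).1 * 1 - (c j).2 * x) <
        max (v.valuation K (c j).1) (v.valuation K (c j).2) *
          max (v.valuation K x) (v.valuation K (1 : K)) ↔ _
      rw [mul_one, map_one]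
    exact h2.trans h3
  have h2 : (v ∉ S ∧ ∃ j, v.valuation K ((c j).1 - (c j).2 * x) <
      max (v.valuation K (c j).1) (v.valuation K (c j).2) * max (v.valuation K x) 1) ↔
      (v ∈ {v : HeightOneSpectrum (𝓞 K) | v ∉ S ∧ 0 < ∑ i, localHeight v (vc (c i)) ![x, 1]}) := by
    refine and_congr_right fun _ => ?_
    constructor
    · rintro ⟨j, hj⟩
      exact Finset.sum_pos' (fun i _ => localHeight_nonneg v (hf i))
        ⟨j, Finset.mem_univ _, (h1 j).2 hj⟩
    · intro h
      by_contra hcon
      push Not at hcon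
      have h4 : ∑ i, localHeight v (vc (c i)) ![x, 1] ≤ 0 :=
        Finset.sum_nonpos fun i _ => by
          by_contra h5
          exact absurd ((h1 i).1 (not_le.1 h5)) (not_lt.2 (hcon i))
      linarith
  exact if_congr h2 rfl rfl

theorem hr_aff (x : K) : hr (aff x) = logHeight₁ x := by
  have h := Pool.Agent.Y246.MN.hr_eq (K := K) (a := ![x, 1]) (fun h => by
    have := congrFun h 1
    simp at this)
  rw [Height.logHeight₁_eq_logHeight]
  exact h

end Pool.Agent.Y728.TR
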