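import Pool.Agent.Y728.AK.GenPts

set_option autoImplicit false

/-!
# From points of bounded height to points of all heights: pairs (helper728)

A set of pairs of elements of `K` which contains only few pairs of bounded height contains only few
pairs of elements with small truncated counting functions, whatever their heights.
-/

namespace Pool.Agent.Y728.TR

open Finset NumberField IsDedekindDomain Height
open Pool.Agent.Y728.AK (GVal GExc g_all g_exc g_low)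
open Pool.Agent.TH876.KR (form counting)

variable (K : Type) [Field K] [NumberField K] {s : ℕ}

theorem rpow_pow_rpow {B e : ℝ} (hB : 0 < B) (s : ℕ) : (B ^ s) ^ e = B ^ (s * e) := by
  rw [← Real.rpow_natCast, ← Real.rpow_mul hB.le]

/-- the number of points, all heights -/
theorem val_all (hs : 3 ≤ s) (S : Set (HeightOneSpectrum (𝓞 K))) (hS : S.Finite)
    (a : Fin s → Fin 2 → K) (ha : ∀ i j, i ≠ j → form (a i) (a j) ≠ 0) (δ : ℝ) (hδ : 0 < δ) :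
    ∃ C : ℝ, 0 < C ∧ ∀ B : ℝ, 1 ≤ B → (GVal K S a (B ^ s)).Finite ∧
      ((GVal K S a (B ^ s)).ncard : ℝ) ≤ C * B ^ (2 + δ) := by
  have hs0 : (0 : ℝ) < s := by
    have : 0 < s := by omega
    exact_mod_cast this
  obtain ⟨C, hC⟩ := g_all K hs S hS a ha (δ / s) (by positivity)
  refine ⟨max C 1, lt_max_of_lt_right one_pos, fun B hB => ?_⟩
  have hB0 : 0 < B := by linarith
  obtain ⟨h1, h2⟩ := hC (B ^ s) (one_le_pow₀ hB)
  refine ⟨h1, h2.trans ?_⟩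
  rw [rpow_pow_rpow hB0]
  have e1 : (s : ℝ) * (2 / s + δ / s) = 2 + δ := by field_simp
  rw [e1]
  exact mul_le_mul_of_nonneg_right (le_max_left _ _) (Real.rpow_pos_of_pos hB0 _).le

theorem val_low (hs : 3 ≤ s) (S : Set (HeightOneSpectrum (𝓞 K))) (hS : S.Finite)
    (a : Fin s → Fin 2 → K) (ha : ∀ i j, i ≠ j → form (a i) (a j) ≠ 0) (δ : ℝ) (hδ : 0 < δ) :
    ∃ B₀ : ℝ, 1 ≤ B₀ ∧ ∀ B : ℝ, B₀ ≤ B →
      B ^ (2 - δ) ≤ ((GVal K S a (B ^ s)).ncard : ℝ) := by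
  have hs0 : (0 : ℝ) < s := by
    have : 0 < s := by omega
    exact_mod_cast this
  obtain ⟨X₀, hX₀, h⟩ := g_low K hs S hS a ha (δ / s) (by positivity)
  refine ⟨X₀, hX₀, fun B hB => ?_⟩
  have hB1 : 1 ≤ B := hX₀.trans hB
  have hB0 : 0 < B := by linarith
  have h1 := h (B ^ s) (hB.trans (le_self_pow₀ hB1 (by omega)))
  rw [rpow_pow_rpow hB0] at h1
  have e1 : (s : ℝ) * (2 / s - δ / s) = 2 - δ := by field_simp
  rwa [e1] at h1

/-- the points of small counting function and large height -/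
theorem val_exc (hs : 3 ≤ s) (S : Set (HeightOneSpectrum (𝓞 K))) (hS : S.Finite)
    (a : Fin s → Fin 2 → K) (ha : ∀ i j, i ≠ j → form (a i) (a j) ≠ 0) (η : ℝ) (hη : 0 < η) :
    ∃ ν C : ℝ, 0 < ν ∧ 0 < C ∧ ∀ B : ℝ, 1 ≤ B →
      ∃ Ex : Set K, Ex.Finite ∧ (Ex.ncard : ℝ) ≤ C * B ^ (2 - ν) ∧
        ∀ x ∈ GVal K S a (B ^ s), x ∉ Ex → logHeight₁ x ≤ (1 + η) * Real.log B := by
  have hs1 : (3 : ℝ) ≤ s := by exact_mod_cast hs
  have hs0 : (0 : ℝ) < s := by linarith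
  obtain ⟨κ, hκe⟩ : ∃ κ : ℝ, κ = min 1 (η / (1 + η)) := ⟨_, rfl⟩
  have h1η : 0 < 1 + η := by linarith
  have hκ : 0 < κ := by
    rw [hκe]
    exact lt_min one_pos (by positivity)
  have hκ1 : κ ≤ 1 := by rw [hκe]; exact min_le_left _ _
  have hκ2 : (1 + η) * κ ≤ η := by
    have h1 : κ ≤ η / (1 + η) := by rw [hκe]; exact min_le_right _ _
    have h2 := mul_le_mul_of_nonneg_left h1 h1η.le
    have e2 : (1 + η) * (η / (1 + η)) = η := by field_simp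
    linarith
  obtain ⟨ν, C, hν, -, hC, h⟩ := g_exc K hs S hS a ha hκ 0
  refine ⟨s * ν, C, by positivity, hC, fun B hB => ?_⟩
  have hB0 : 0 < B := by linarith
  obtain ⟨h1, h2⟩ := h (B ^ s) (one_le_pow₀ hB)
  refine ⟨GExc K S a κ 0 (B ^ s), h1, ?_, fun x hx hxE => ?_⟩
  · refine h2.trans (le_of_eq ?_)
    rw [rpow_pow_rpow hB0]
    congr 2
    field_simp
  · have h3 : ((s : ℝ) - κ) * logHeight₁ x ≤ counting S a ![x, 1] := by
      by_contra hcon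
      apply hxE
      refine ⟨hx.1, hx.2, ?_⟩
      rw [add_zero]
      exact not_le.1 hcon
    have h4 : ((s : ℝ) - κ) * logHeight₁ x ≤ s * Real.log B := by
      refine h3.trans (hx.2.trans (le_of_eq ?_))
      rw [Real.log_pow]
    have hl : 0 ≤ Real.log B := Real.log_nonneg hB
    have hsκ : 0 < (s : ℝ) - κ := by linarith
    by_contra hcon
    rw [not_le] at hcon
    have h5 := mul_lt_mul_of_pos_left hcon hsκ
    have h6 : (s : ℝ) * Real.log B ≤ ((s : ℝ) - κ) * ((1 + η) * Real.log B) := by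
      have e6 : ((s : ℝ) - κ) * ((1 + η) * Real.log B) - s * Real.log B =
          (s * η - (1 + η) * κ) * Real.log B := by ring
      have h7 : 0 ≤ (s * η - (1 + η) * κ) * Real.log B := by
        refine mul_nonneg ?_ hl
        nlinarith
      linarith
    linarith

/-- **from bounded height to all heights** -/
theorem transfer2 {s s' : ℕ} (hs : 3 ≤ s) (hs' : 3 ≤ s')
    (S S' : Set (HeightOneSpectrum (𝓞 K))) (hS : S.Finite) (hS' : S'.Finite)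
    (a : Fin s → Fin 2 → K) (a' : Fin s' → Fin 2 → K)
    (ha : ∀ i j, i ≠ j → form (a i) (a j) ≠ 0) (ha' : ∀ i j, i ≠ j → form (a' i) (a' j) ≠ 0)
    (E : Set (K × K)) (η : ℝ) (hη : 0 < η)
    (hE : ∃ C : ℝ, 0 ≤ C ∧ ∀ Y : ℝ, 0 ≤ Y → ∀ F : Finset (K × K),
      (∀ z ∈ F, z ∈ E ∧ logHeight₁ z.1 ≤ Y ∧ logHeight₁ z.2 ≤ Y) →
        (F.card : ℝ) ≤ C * Real.exp ((4 - η) * Y)) :
    ∃ ν C : ℝ, 0 < ν ∧ 0 < C ∧ ∀ B : ℝ, 1 ≤ B →
      (({z | z ∈ E ∧ z.1 ∈ GVal K S a (B ^ s) ∧ z.2 ∈ GVal K S' a' (B ^ s')}.ncard : ℕ) : ℝ) ≤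
        C * B ^ (4 - ν) := by
  classical
  obtain ⟨C₀, hC₀, hE⟩ := hE
  obtain ⟨ν₁, C₁, hν₁, hC₁, h1⟩ := val_exc K hs S hS a ha (η / 8) (by positivity)
  obtain ⟨ν₂, C₂, hν₂, hC₂, h2⟩ := val_exc K hs' S' hS' a' ha' (η / 8) (by positivity)
  obtain ⟨C₃, hC₃, h3⟩ := val_all K hs S hS a ha (ν₂ / 2) (by positivity)
  obtain ⟨C₄, hC₄, h4⟩ := val_all K hs' S' hS' a' ha' (ν₁ / 2) (by positivity)
  obtain ⟨ν, hν⟩ : ∃ ν : ℝ, ν = min (η / 2) (min (ν₁ / 2) (ν₂ / 2)) := ⟨_, rfl⟩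
  have hν0 : 0 < ν := by
    rw [hν]
    exact lt_min (by positivity) (lt_min (by positivity) (by positivity))
  have hνη : ν ≤ η / 2 := by rw [hν]; exact min_le_left _ _
  have hνν₁ : ν ≤ ν₁ / 2 := by rw [hν]; exact (min_le_right _ _).trans (min_le_left _ _)
  have hνν₂ : ν ≤ ν₂ / 2 := by rw [hν]; exact (min_le_right _ _).trans (min_le_right _ _)
  refine ⟨ν, C₁ * C₄ + C₂ * C₃ + C₀, hν0, by positivity, fun B hB => ?_⟩
  have hB0 : 0 < B := by linarith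
  have hl : 0 ≤ Real.log B := Real.log_nonneg hB
  obtain ⟨E₁, hE₁f, hE₁c, hE₁⟩ := h1 B hB
  obtain ⟨E₂, hE₂f, hE₂c, hE₂⟩ := h2 B hB
  obtain ⟨hf3, hc3⟩ := h3 B hB
  obtain ⟨hf4, hc4⟩ := h4 B hB
  obtain ⟨Z, hZ⟩ : ∃ Z : Set (K × K),
    Z = {z | z ∈ E ∧ z.1 ∈ GVal K S a (B ^ s) ∧ z.2 ∈ GVal K S' a' (B ^ s')} := ⟨_, rfl⟩
  rw [← hZ]
  have hZf : Z.Finite := by
    rw [hZ]
    exact (hf3.prod hf4).subset fun z hz => ⟨hz.2.1, hz.2.2⟩
  obtain ⟨R, hR⟩ : ∃ R : Set (K × K), R = {z | z ∈ Z ∧ z.1 ∉ E₁ ∧ z.2 ∉ E₂} := ⟨_, rfl⟩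
  have hRf : R.Finite := by
    rw [hR]
    exact hZf.subset fun z hz => hz.1
  have hsub : Z ⊆ (E₁ ×ˢ GVal K S' a' (B ^ s')) ∪ (GVal K S a (B ^ s) ×ˢ E₂) ∪ R := by
    intro z hz
    by_cases hz1 : z.1 ∈ E₁
    · refine Or.inl (Or.inl ⟨hz1, ?_⟩)
      rw [hZ] at hz
      exact hz.2.2
    · by_cases hz2 : z.2 ∈ E₂
      · refine Or.inl (Or.inr ⟨?_, hz2⟩)
        rw [hZ] at hz
        exact hz.2.1
      · refine Or.inr ?_
        rw [hR]
        exact ⟨hz, hz1, hz2⟩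
  have hcard : Z.ncard ≤ E₁.ncard * (GVal K S' a' (B ^ s')).ncard +
      (GVal K S a (B ^ s)).ncard * E₂.ncard + R.ncard := by
    refine (Set.ncard_le_ncard hsub (((hE₁f.prod hf4).union (hf3.prod hE₂f)).union hRf)).trans ?_
    refine (Set.ncard_union_le _ _).trans (Nat.add_le_add_right ?_ _)
    refine (Set.ncard_union_le _ _).trans ?_
    rw [Set.ncard_prod, Set.ncard_prod]
  have hRc : (R.ncard : ℝ) ≤ C₀ * B ^ (4 - ν) := by
    have h5 := hE ((1 + η / 8) * Real.log B) (by positivity) hRf.toFinset (fun z hz => by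
      rw [Set.Finite.mem_toFinset, hR] at hz
      obtain ⟨hz, hz1, hz2⟩ := hz
      rw [hZ] at hz
      exact ⟨hz.1, hE₁ _ hz.2.1 hz1, hE₂ _ hz.2.2 hz2⟩)
    rw [← Set.ncard_eq_toFinset_card _ hRf] at h5
    refine h5.trans (mul_le_mul_of_nonneg_left ?_ hC₀)
    rw [Real.rpow_def_of_pos hB0, Real.exp_le_exp]
    have e1 : (4 - η) * ((1 + η / 8) * Real.log B) =
        Real.log B * (4 - η / 2 - η ^ 2 / 8) := by ring
    rw [e1]
    refine mul_le_mul_of_nonneg_left ?_ hl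
    have : 0 ≤ η ^ 2 / 8 := by positivity
    linarith
  have hp : ∀ {u w p q : ℝ} {A D : ℝ}, 0 ≤ u → u ≤ A * B ^ p → 0 ≤ w → w ≤ D * B ^ q → 0 ≤ A →
      0 ≤ D → p + q ≤ 4 - ν → u * w ≤ A * D * B ^ (4 - ν) := by
    intro u w p q A D hu0 hu hw0 hw hA hD hpq
    have h5 : u * w ≤ (A * B ^ p) * (D * B ^ q) :=
      mul_le_mul hu hw hw0 (hu0.trans hu)
    have e5 : (A * B ^ p) * (D * B ^ q) = A * D * B ^ (p + q) := by
      rw [Real.rpow_add hB0]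
      ring
    rw [e5] at h5
    refine h5.trans (mul_le_mul_of_nonneg_left ?_ (by positivity))
    exact Real.rpow_le_rpow_of_exponent_le hB hpq
  have h6 : (E₁.ncard : ℝ) * ((GVal K S' a' (B ^ s')).ncard : ℝ) ≤
      C₁ * C₄ * B ^ (4 - ν) :=
    hp (Nat.cast_nonneg _) hE₁c (Nat.cast_nonneg _) hc4 hC₁.le hC₄.le (by linarith)
  have h7 : ((GVal K S a (B ^ s)).ncard : ℝ) * (E₂.ncard : ℝ) ≤
      C₂ * C₃ * B ^ (4 - ν) := by
    rw [mul_comm]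
    exact hp (Nat.cast_nonneg _) hE₂c (Nat.cast_nonneg _) hc3 hC₂.le hC₃.le (by linarith)
  have h8 : (Z.ncard : ℝ) ≤ (E₁.ncard : ℝ) * ((GVal K S' a' (B ^ s')).ncard : ℝ) +
      ((GVal K S a (B ^ s)).ncard : ℝ) * (E₂.ncard : ℝ) + (R.ncard : ℝ) := by exact_mod_cast hcard
  have e9 : (C₁ * C₄ + C₂ * C₃ + C₀) * B ^ (4 - ν) = C₁ * C₄ * B ^ (4 - ν) +
      C₂ * C₃ * B ^ (4 - ν) + C₀ * B ^ (4 - ν) := by ring
  rw [e9]
  linarith

end Pool.Agent.Y728.TR
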